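import Pool.Agent.X237.TP.Final

/-!
# MP_c030b7_lc: a Mazurkiewicz set which splits into two Hamel functions under every rotation
-/

set_option autoImplicit false

namespace Pool.Agent.Results.MP_c030b7_lc.TwoHamelFunctionsEveryRotation

/-- The straight line `a x + b y = c` (a line when `(a, b) ≠ (0, 0)`). -/
def line (a b c : ℝ) : Set (ℝ × ℝ) := {p | a * p.1 + b * p.2 = c}

/-- A Mazurkiewicz set (two-point set) meets every straight line in exactly two points. -/
def IsMazurkiewicz (M : Set (ℝ × ℝ)) : Prop :=
  ∀ a b c : ℝ, (a ≠ 0 ∨ b ≠ 0) → (M ∩ line a b c).ncard = 2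

/-- The graph of a real function, a subset of the plane. -/
def graph (h : ℝ → ℝ) : Set (ℝ × ℝ) := {p | p.2 = h p.1}

/-- A set which is a basis of the plane as a vector space over the rationals. -/
def IsHamelBasis (G : Set (ℝ × ℝ)) : Prop :=
  LinearIndepOn ℚ id G ∧ Submodule.span ℚ G = ⊤

/-- A Hamel function: its graph is a Hamel basis of the plane. -/
def IsHamelFunction (h : ℝ → ℝ) : Prop := IsHamelBasis (graph h)

/-- The counterclockwise rotation by the angle `θ` about the origin. -/
noncomputable def rot (θ : ℝ) (p : ℝ × ℝ) : ℝ × ℝ :=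
  (p.1 * Real.cos θ - p.2 * Real.sin θ, p.1 * Real.sin θ + p.2 * Real.cos θ)

/-- There is a Mazurkiewicz set all of whose rotations about the origin are unions of (the graphs
of) two Hamel functions. -/
theorem result : ∃ M : Set (ℝ × ℝ), IsMazurkiewicz M ∧
    ∀ θ : ℝ, ∃ f g : ℝ → ℝ, IsHamelFunction f ∧ IsHamelFunction g ∧
      rot θ '' M = graph f ∪ graph g :=
  Pool.Agent.X237.TP.exists_twoHamel

end Pool.Agent.Results.MP_c030b7_lc.TwoHamelFunctionsEveryRotation
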